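import Mathlib

namespace Pool.Agent.U664.BaseSn

open Equiv Equiv.Perm MulAction

/-- `B` is a base for the action of `G` on `X`: only the identity fixes every point of `B`. -/
def IsBase (G : Type*) [Group G] {X : Type*} [MulAction G X] (B : Finset X) : Prop :=
  ∀ g : G, (∀ x ∈ B, g • x = x) → g = 1

/-- The pointwise stabiliser of a finite set. -/
def fixB (G : Type*) [Group G] {X : Type*} [MulAction G X] (B : Finset X) : Subgroup G where
  carrier := {g | ∀ x ∈ B, g • x = x}
  one_mem' := fun x _ => one_smul G x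
  mul_mem' := by
    intro a b ha hb x hx
    rw [mul_smul, hb x hx, ha x hx]
  inv_mem' := by
    intro a ha x hx
    rw [inv_smul_eq_iff, ha x hx]

lemma mem_fixB {G : Type*} [Group G] {X : Type*} [MulAction G X] {B : Finset X} {g : G} :
    g ∈ fixB G B ↔ ∀ x ∈ B, g • x = x := Iff.rfl

/-- A set whose pointwise stabiliser has order `< 2^(k+1)` extends to a base by `k` points. -/
lemma extend_base {G : Type*} [Group G] [Finite G] {X : Type*} [DecidableEq X] [MulAction G X]
    [FaithfulSMul G X] (k : ℕ) :
    ∀ B : Finset X, Nat.card (fixB G B) < 2 ^ (k + 1) →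
      ∃ B' : Finset X, B'.card ≤ B.card + k ∧ IsBase G B' := by
  induction k with
  | zero =>
    intro B hB
    refine ⟨B, by omega, ?_⟩
    intro g hg
    have h1 : Nat.card (fixB G B) = 1 := by
      have := Nat.card_pos (α := fixB G B)
      omega
    have h2 := Subgroup.card_eq_one.mp h1
    have h3 : g ∈ fixB G B := hg
    rw [h2] at h3
    exact Subgroup.mem_bot.mp h3
  | succ k ih =>
    intro B hB
    by_cases hb : IsBase G B
    · exact ⟨B, by omega, hb⟩
    · have hex : ∃ g : G, (∀ x ∈ B, g • x = x) ∧ g ≠ 1 := by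
        unfold IsBase at hb
        push Not at hb
        exact hb
      obtain ⟨g, hg, hg1⟩ := hex
      have hex2 : ∃ x : X, g • x ≠ x := by
        by_contra hcon
        push Not at hcon
        apply hg1
        apply FaithfulSMul.eq_of_smul_eq_smul (α := X)
        intro x
        rw [hcon x, one_smul]
      obtain ⟨x, hx⟩ := hex2
      have hle : fixB G (insert x B) ≤ fixB G B := by
        intro h hh y hy
        exact hh y (Finset.mem_insert_of_mem hy)
      have hne : fixB G (insert x B) ≠ fixB G B := by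
        intro heq
        have : g ∈ fixB G (insert x B) := by
          rw [heq]; exact hg
        exact hx (this x (Finset.mem_insert_self x B))
      have hdvd := Subgroup.card_dvd_of_le hle
      have hcne : Nat.card (fixB G (insert x B)) ≠ Nat.card (fixB G B) := by
        intro h
        exact hne (Subgroup.eq_of_le_of_card_ge hle (le_of_eq h.symm))
      have hpos : 0 < Nat.card (fixB G B) := Nat.card_pos
      have hhalf : 2 * Nat.card (fixB G (insert x B)) ≤ Nat.card (fixB G B) := by
        obtain ⟨m, hm⟩ := hdvd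
        rcases Nat.lt_or_ge m 2 with h | h
        · interval_cases m
          · omega
          · exfalso; apply hcne; omega
        · rw [hm]
          nlinarith [Nat.zero_le (Nat.card (fixB G (insert x B)))]
      have hlt : Nat.card (fixB G (insert x B)) < 2 ^ (k + 1) := by
        have : 2 ^ (k + 1 + 1) = 2 * 2 ^ (k + 1) := by ring
        omega
      obtain ⟨B', hB', hbase⟩ := ih _ hlt
      refine ⟨B', ?_, hbase⟩
      have := Finset.card_insert_le x B
      omega

section Perm

variable {α : Type*} [DecidableEq α]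

lemma key {H : Subgroup (Perm α)} {h : Perm α} {a b : α} (hh : h ∈ H)
    (ht : swap a b * h * swap a b ∈ H) : swap a b * swap (h a) (h b) ∈ H := by
  have h1 := H.mul_mem ht (H.inv_mem hh)
  have h2 : swap a b * h * swap a b * h⁻¹ = swap a b * swap (h a) (h b) := by
    rw [mul_assoc (swap a b) h, mul_swap_eq_swap_mul]; group
  rwa [h2] at h1

variable {X : Type*} [MulAction (Perm α) X]

lemma mem_of_fix_translate {x : X} {a b : α} {h : Perm α}
    (hx : h • ((swap a b) • x) = (swap a b) • x) :
    swap a b * h * swap a b ∈ stabilizer (Perm α) x := by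
  rw [mem_stabilizer_iff, mul_smul, mul_smul, hx, ← mul_smul, swap_mul_self, one_smul]

/-- Double star lemma. -/
lemma double_star [Fintype α] [DecidableEq X] (x : X) (Δ : Finset α) (u w : α)
    (hu : u ∈ Δ) (hw : w ∉ Δ) (h3 : 3 ≤ Fintype.card α)
    (E : ∀ a ∈ Δ, ∀ b ∉ Δ, ∀ h ∈ stabilizer (Perm α) x,
      swap a b * swap (h a) (h b) ∈ stabilizer (Perm α) x →
      (h a = a ∧ h b = b) ∨ (h a = b ∧ h b = a)) :
    ∃ B : Finset X, B.card ≤ Fintype.card α ∧ IsBase (Perm α) B := by
  classical
  refine ⟨insert x ((Δᶜ.image fun y => swap u y • x) ∪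
    ((Δ.erase u).image fun z => swap z w • x)), ?_, ?_⟩
  · have h1 : (Δᶜ.image fun y => swap u y • x).card ≤ Δᶜ.card := Finset.card_image_le
    have h2 : ((Δ.erase u).image fun z => swap z w • x).card ≤ (Δ.erase u).card :=
      Finset.card_image_le
    have h4 := Finset.card_union_le (Δᶜ.image fun y => swap u y • x)
      ((Δ.erase u).image fun z => swap z w • x)
    have h5 := Finset.card_insert_le x ((Δᶜ.image fun y => swap u y • x) ∪
      ((Δ.erase u).image fun z => swap z w • x))
    have h6 : (Δ.erase u).card = Δ.card - 1 := Finset.card_erase_of_mem hu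
    have h7 : 0 < Δ.card := Finset.card_pos.mpr ⟨u, hu⟩
    have h8 : Δᶜ.card = Fintype.card α - Δ.card := Finset.card_compl Δ
    have h9 : Δ.card ≤ Fintype.card α := Finset.card_le_univ Δ
    omega
  · intro h hh
    have hH : h ∈ stabilizer (Perm α) x :=
      mem_stabilizer_iff.mpr (hh x (Finset.mem_insert_self _ _))
    have P1 : ∀ y ∉ Δ, (h u = u ∧ h y = y) ∨ (h u = y ∧ h y = u) := by
      intro y hy
      apply E u hu y hy h hH
      apply key hH
      apply mem_of_fix_translate
      apply hh
      apply Finset.mem_insert_of_mem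
      apply Finset.mem_union_left
      exact Finset.mem_image_of_mem (fun y => swap u y • x) (Finset.mem_compl.mpr hy)
    have P2 : ∀ z ∈ Δ, (h z = z ∧ h w = w) ∨ (h z = w ∧ h w = z) := by
      intro z hz
      by_cases hzu : z = u
      · subst hzu; exact P1 w hw
      apply E z hz w hw h hH
      apply key hH
      apply mem_of_fix_translate
      apply hh
      apply Finset.mem_insert_of_mem
      apply Finset.mem_union_right
      exact Finset.mem_image_of_mem (fun z => swap z w • x) (Finset.mem_erase.mpr ⟨hzu, hz⟩)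
    have huw : u ≠ w := fun h => hw (h ▸ hu)
    -- a third point
    have hthird : ∃ v : α, v ≠ u ∧ v ≠ w := by
      by_contra hcon
      push Not at hcon
      have : (Finset.univ : Finset α) ⊆ {u, w} := by
        intro v _
        simp only [Finset.mem_insert, Finset.mem_singleton]
        by_cases hv : v = u
        · exact Or.inl hv
        · exact Or.inr (hcon v hv)
      have h1 := Finset.card_le_card this
      have h2 : ({u, w} : Finset α).card ≤ 2 := Finset.card_le_two
      rw [Finset.card_univ] at h1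
      omega
    obtain ⟨v, hvu, hvw⟩ := hthird
    have huu : h u = u ∧ h w = w := by
      by_cases hv : v ∈ Δ
      · rcases P2 v hv with h1 | h1
        · rcases P1 w hw with h2 | h2
          · exact h2
          · exfalso; apply huw; rw [← h2.2, h1.2]
        · rcases P1 w hw with h2 | h2
          · exact h2
          · exfalso; apply hvu; rw [← h1.2, h2.2]
      · rcases P1 v hv with h1 | h1
        · rcases P1 w hw with h2 | h2
          · exact h2
          · exfalso; apply huw; rw [← h1.1, h2.1]
        · rcases P1 w hw with h2 | h2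
          · exact h2
          · exfalso; apply hvw; rw [← h1.1, h2.1]
    ext z
    rw [Perm.one_apply]
    by_cases hz : z ∈ Δ
    · rcases P2 z hz with h1 | h1
      · exact h1.1
      · exfalso; apply hw; rw [← huu.2, h1.2]; exact hz
    · rcases P1 z hz with h1 | h1
      · exact h1.2
      · exfalso; apply hz; rw [← h1.1, huu.1]; exact hu

end Perm

section Perm

variable {α : Type*} [DecidableEq α] [Fintype α]

/-- No product `(a b)(a c)` (a three-cycle) lies in `H`. -/
def No3 (H : Subgroup (Perm α)) : Prop :=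
  ∀ a b c : α, a ≠ b → a ≠ c → b ≠ c → swap a b * swap a c ∉ H

open Classical in
/-- points moved to by class of the pair `a b`. -/
noncomputable def R (H : Subgroup (Perm α)) (a b : α) : Finset α :=
  Finset.univ.filter (fun c => ∃ d, c ≠ d ∧ swap a b * swap c d ∈ H)

lemma mem_R {H : Subgroup (Perm α)} {a b c : α} :
    c ∈ R H a b ↔ ∃ d, c ≠ d ∧ swap a b * swap c d ∈ H := by
  unfold R; simp

lemma exists_small (H : Subgroup (Perm α)) (h3 : No3 H) (hn : 5 ≤ Fintype.card α) :
    ∃ a b : α, a ≠ b ∧ (R H a b).card ≤ 8 := by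
  classical
  by_contra hcon
  push Not at hcon
  have hcard : 1 < Fintype.card α := by omega
  obtain ⟨a, b, hab⟩ := Fintype.exists_pair_of_one_lt_card hcard
  -- an element c of R a b different from a, b
  have h1 : ∃ c ∈ R H a b, c ∉ ({a, b} : Finset α) := by
    by_contra hc
    push Not at hc
    have h2 : R H a b ⊆ {a, b} := fun c hc' => hc c hc'
    have h4 := Finset.card_le_card h2
    have h5 : ({a, b} : Finset α).card ≤ 2 := Finset.card_le_two
    have h6 := hcon a b hab
    omega
  obtain ⟨c, hcR, hcab⟩ := h1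
  obtain ⟨d, hcd, hz⟩ := mem_R.mp hcR
  simp only [Finset.mem_insert, Finset.mem_singleton, not_or] at hcab
  obtain ⟨hca, hcb⟩ := hcab
  have hda : d ≠ a := by
    rintro rfl
    apply h3 d b c hab (Ne.symm hca) (Ne.symm hcb)
    rw [swap_comm c d] at hz
    exact hz
  have hdb : d ≠ b := by
    rintro rfl
    apply h3 d a c (Ne.symm hab) (Ne.symm hcb) (Ne.symm hca)
    rw [swap_comm c d, swap_comm a d] at hz
    exact hz
  -- a fifth point
  have h7 : ∃ p : α, p ∉ ({a, b, c, d} : Finset α) := by
    by_contra hc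
    push Not at hc
    have h2 : (Finset.univ : Finset α) ⊆ {a, b, c, d} := fun c _ => hc c
    have h4 := Finset.card_le_card h2
    have h5 : ({a, b, c, d} : Finset α).card ≤ 4 := Finset.card_le_four
    rw [Finset.card_univ] at h4
    omega
  obtain ⟨p, hp⟩ := h7
  simp only [Finset.mem_insert, Finset.mem_singleton, not_or] at hp
  obtain ⟨hpa, hpb, hpc, hpd⟩ := hp
  have hpart : ∀ f ∈ R H a p, ∃ g, f ≠ g ∧ swap a p * swap f g ∈ H := fun f hf => mem_R.mp hf
  choose! π hπ1 hπ2 using hpart
  have hinj : Set.InjOn π (R H a p : Set α) := by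
    intro f hf f' hf' hff
    by_contra hne
    have e1 := hπ2 f hf
    have e2 := hπ2 f' hf'
    rw [← hff] at e2
    have e3 := H.mul_mem (H.inv_mem e1) e2
    have e4 : (swap a p * swap f (π f))⁻¹ * (swap a p * swap f' (π f)) =
        swap (π f) f * swap (π f) f' := by
      rw [mul_inv_rev, swap_inv, swap_inv, mul_assoc, ← mul_assoc (swap a p) (swap a p),
        swap_mul_self, one_mul, swap_comm f, swap_comm f']
    rw [e4] at e3
    refine h3 _ _ _ ?_ ?_ hne e3
    · exact fun h => hπ1 f hf h.symm
    · rw [hff]; exact fun h => hπ1 f' hf' h.symm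
  set S : Finset α := {a, b, c, d} with hS
  have hScard : S.card ≤ 4 := Finset.card_le_four
  have hexf : ∃ f ∈ R H a p, f ∉ S ∧ π f ∉ S := by
    by_contra hc
    push Not at hc
    have hsub : R H a p ⊆ S ∪ (R H a p).filter (fun f => π f ∈ S) := by
      intro f hf
      by_cases hfS : f ∈ S
      · exact Finset.mem_union_left _ hfS
      · apply Finset.mem_union_right
        exact Finset.mem_filter.mpr ⟨hf, hc f hf hfS⟩
    have e1 := Finset.card_le_card hsub
    have e2 := Finset.card_union_le S ((R H a p).filter (fun f => π f ∈ S))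
    have e3 : ((R H a p).filter (fun f => π f ∈ S)).card ≤ S.card := by
      apply Finset.card_le_card_of_injOn π
      · intro f hf
        exact (Finset.mem_filter.mp hf).2
      · intro f hf f' hf' hff
        apply hinj _ _ hff
        · exact (Finset.mem_filter.mp hf).1
        · exact (Finset.mem_filter.mp hf').1
    have e4 := hcon a p (Ne.symm hpa)
    omega
  obtain ⟨f, hfR, hfS, hgS⟩ := hexf
  have hg := hπ2 f hfR
  set g := π f with hgdef
  simp only [hS, Finset.mem_insert, Finset.mem_singleton, not_or] at hfS hgS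
  obtain ⟨hfa, hfb, hfc, hfd⟩ := hfS
  obtain ⟨hga, hgb, hgc, hgd⟩ := hgS
  set z := swap a b * swap c d with hzdef
  have hconj := H.mul_mem (H.mul_mem hz hg) (H.inv_mem hz)
  have hza : z a = b := by
    rw [hzdef, Perm.mul_apply, swap_apply_of_ne_of_ne (Ne.symm hca) (Ne.symm hda), swap_apply_left]
  have hzp : z p = p := by
    rw [hzdef, Perm.mul_apply, swap_apply_of_ne_of_ne hpc hpd, swap_apply_of_ne_of_ne hpa hpb]
  have hzf : z f = f := by
    rw [hzdef, Perm.mul_apply, swap_apply_of_ne_of_ne hfc hfd, swap_apply_of_ne_of_ne hfa hfb]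
  have hzg : z g = g := by
    rw [hzdef, Perm.mul_apply, swap_apply_of_ne_of_ne hgc hgd, swap_apply_of_ne_of_ne hga hgb]
  have e5 : z * (swap a p * swap f g) * z⁻¹ = swap b p * swap f g := by
    have c1 : z * swap a p * z⁻¹ = swap b p := by
      rw [mul_swap_eq_swap_mul, mul_inv_cancel_right, hza, hzp]
    have c2 : z * swap f g * z⁻¹ = swap f g := by
      rw [mul_swap_eq_swap_mul, mul_inv_cancel_right, hzf, hzg]
    calc z * (swap a p * swap f g) * z⁻¹ = (z * swap a p * z⁻¹) * (z * swap f g * z⁻¹) := by group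
      _ = swap b p * swap f g := by rw [c1, c2]
  rw [e5] at hconj
  have hfin := H.mul_mem hg (H.inv_mem hconj)
  have e6 : swap a p * swap f g * (swap b p * swap f g)⁻¹ = swap p a * swap p b := by
    rw [mul_inv_rev, swap_inv, swap_inv, mul_assoc, ← mul_assoc (swap f g) (swap f g),
      swap_mul_self, one_mul, swap_comm a, swap_comm b]
  rw [e6] at hfin
  exact h3 p a b hpa hpb hab hfin

variable {X : Type*} [MulAction (Perm α) X] [DecidableEq X]

/-- star centred at `a` -/
def star (x : X) (a : α) (Y : Finset α) : Finset X := insert x (Y.image fun y => swap a y • x)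

omit [Fintype α] in
lemma card_star (x : X) (a : α) (Y : Finset α) : (star x a Y).card ≤ Y.card + 1 := by
  unfold star
  have h1 := Finset.card_insert_le x (Y.image fun y => swap a y • x)
  have h2 : (Y.image fun y => swap a y • x).card ≤ Y.card := Finset.card_image_le
  omega

omit [Fintype α] in
lemma star_stab {x : X} {a : α} {Y : Finset α} {h : Perm α} (hh : h ∈ fixB (Perm α) (star x a Y)) :
    h ∈ stabilizer (Perm α) x :=
  mem_stabilizer_iff.mpr (hh x (Finset.mem_insert_self _ _))

omit [Fintype α] in
lemma star_key {x : X} {a : α} {Y : Finset α} {h : Perm α} (hh : h ∈ fixB (Perm α) (star x a Y))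
    {y : α} (hy : y ∈ Y) : swap a y * swap (h a) (h y) ∈ stabilizer (Perm α) x := by
  apply key (star_stab hh)
  apply mem_of_fix_translate
  apply hh
  apply Finset.mem_insert_of_mem
  exact Finset.mem_image_of_mem (fun y => swap a y • x) hy

omit [Fintype α] in
lemma star_fix {x : X} (h3 : No3 (stabilizer (Perm α) x)) {a : α} {Y : Finset α} (haY : a ∉ Y)
    {h : Perm α} (hh : h ∈ fixB (Perm α) (star x a Y)) (ha : h a = a) :
    ∀ y ∈ Y, h y = y := by
  intro y hy
  by_contra hne
  have h1 := star_key hh hy
  rw [ha] at h1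
  have hay : a ≠ y := fun e => haY (e ▸ hy)
  refine h3 a y (h y) hay ?_ (Ne.symm hne) h1
  intro e
  apply hay
  apply h.injective
  rw [ha, ← e]

/-- the counting step -/
lemma star_base [FaithfulSMul (Perm α) X] {x : X} (h3 : No3 (stabilizer (Perm α) x)) {a : α}
    {Y : Finset α} (haY : a ∉ Y) (hone : ∀ h ∈ stabilizer (Perm α) x, h a = a →
      (∀ y ∈ Y, h y = y) → h = 1) (T : Finset α)
    (hT : ∀ h ∈ fixB (Perm α) (star x a Y), h a ∈ T) (k : ℕ) (hk : T.card < 2 ^ (k + 1)) :
    ∃ B : Finset X, B.card ≤ Y.card + 1 + k ∧ IsBase (Perm α) B := by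
  have hcard : Nat.card (fixB (Perm α) (star x a Y)) ≤ T.card := by
    have hinj : Function.Injective
        (fun h : fixB (Perm α) (star x a Y) => (⟨h.1 a, hT h.1 h.2⟩ : T)) := by
      intro h h' hhh
      have e1 : h.1 a = h'.1 a := congrArg Subtype.val hhh
      have e2 : h'.1⁻¹ * h.1 ∈ fixB (Perm α) (star x a Y) :=
        (fixB (Perm α) (star x a Y)).mul_mem ((fixB (Perm α) (star x a Y)).inv_mem h'.2) h.2
      have e3 : (h'.1⁻¹ * h.1) a = a := by
        rw [Perm.mul_apply, e1]; simp
      have e4 := hone _ (star_stab e2) e3 (star_fix h3 haY e2 e3)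
      apply Subtype.ext
      exact (inv_mul_eq_one.mp e4).symm
    have := Nat.card_le_card_of_injective _ hinj
    rwa [Nat.card_eq_fintype_card (α := T), Fintype.card_coe] at this
  obtain ⟨B, hB, hb⟩ := extend_base k (star x a Y) (lt_of_le_of_lt hcard hk)
  have := card_star x a Y
  exact ⟨B, by omega, hb⟩

end Perm

section Cases

variable {α : Type*} [DecidableEq α] [Fintype α]
variable {X : Type*} [MulAction (Perm α) X] [DecidableEq X]

/-- Primitive case. -/
lemma prim_case [FaithfulSMul (Perm α) X] (x : X) (hn : 5 ≤ Fintype.card α)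
    (hprim : IsPreprimitive (stabilizer (Perm α) x) α)
    (halt : ¬ alternatingGroup α ≤ stabilizer (Perm α) x) :
    ∃ B : Finset X, B.card ≤ Fintype.card α ∧ IsBase (Perm α) B := by
  classical
  have h3 : No3 (stabilizer (Perm α) x) := by
    intro a b c hab hac hbc hmem
    exact halt (alternatingGroup_le_of_isPreprimitive_of_isThreeCycle_mem hprim
      (isThreeCycle_swap_mul_swap_same hab hac hbc) hmem)
  have hsupp : ∀ h ∈ stabilizer (Perm α) x, h.support.card ≤ 3 → h = 1 := by
    intro h hh hc
    by_contra hne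
    have h0 : h.support.card ≠ 0 := by
      intro h0
      exact hne (card_support_eq_zero.mp h0)
    have h1 := card_support_ne_one h
    have h23 : h.support.card = 2 ∨ h.support.card = 3 := by omega
    rcases h23 with h2 | h2
    · have hs := card_support_eq_two.mp h2
      have := subgroup_eq_top_of_isPreprimitive_of_isSwap_mem hprim h hs hh
      rw [this] at halt
      exact halt le_top
    · have hs := card_support_eq_three_iff.mp h2
      exact halt (alternatingGroup_le_of_isPreprimitive_of_isThreeCycle_mem hprim hs hh)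
  obtain ⟨a, b, hab, hR⟩ := exists_small _ h3 hn
  have hc3 : 3 ≤ (Finset.univ \ {a, b} : Finset α).card := by
    have h1 := Finset.le_card_sdiff ({a, b} : Finset α) Finset.univ
    have h2 : ({a, b} : Finset α).card ≤ 2 := Finset.card_le_two
    rw [Finset.card_univ] at h1
    omega
  obtain ⟨T, hT, hTc⟩ := Finset.exists_subset_card_eq hc3
  have haT : a ∉ T := fun h => by simpa using hT h
  have hbT : b ∉ T := fun h => by simpa using hT h
  set Y : Finset α := Tᶜ.erase a with hY
  have hYc : Y.card = Fintype.card α - 4 := by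
    rw [hY, Finset.card_erase_of_mem (Finset.mem_compl.mpr haT), Finset.card_compl, hTc]
    omega
  have hbY : b ∈ Y := by
    rw [hY]; exact Finset.mem_erase.mpr ⟨Ne.symm hab, Finset.mem_compl.mpr hbT⟩
  obtain ⟨B, hB, hb⟩ := star_base h3 (a := a) (Y := Y) (Finset.notMem_erase a _) (by
    intro h hh ha hY'
    apply hsupp h hh
    rw [← hTc]
    apply Finset.card_le_card
    intro c hc
    by_contra hcT
    rw [mem_support] at hc
    by_cases hca : c = a
    · rw [hca] at hc; exact hc ha
    · exact hc (hY' c (Finset.mem_erase.mpr ⟨hca, Finset.mem_compl.mpr hcT⟩))) (R (stabilizer (Perm α) x) a b) (by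
    intro h hh
    rw [mem_R]
    refine ⟨h b, ?_, star_key hh hbY⟩
    intro e
    exact hab (h.injective e)) 3 (by omega)
  exact ⟨B, by omega, hb⟩

/-- Case of an invariant fixed-point-free pairing. -/
lemma pair_case [FaithfulSMul (Perm α) X] (x : X) (hn : 5 ≤ Fintype.card α)
    (π : α → α) (hπ1 : ∀ a, π a ≠ a) (hπ2 : ∀ a, π (π a) = a)
    (hπ3 : ∀ h ∈ stabilizer (Perm α) x, ∀ a, h (π a) = π (h a)) :
    ∃ B : Finset X, B.card ≤ Fintype.card α ∧ IsBase (Perm α) B := by
  classical
  have hcard : 0 < Fintype.card α := by omega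
  obtain ⟨a⟩ := Fintype.card_pos_iff.mp hcard
  have hex : ∀ S : Finset α, S.card < Fintype.card α → ∃ b, b ∉ S := by
    intro S hS
    by_contra hc
    push Not at hc
    have h1 : (Finset.univ : Finset α) ⊆ S := fun b _ => hc b
    have h2 := Finset.card_le_card h1
    rw [Finset.card_univ] at h2
    omega
  obtain ⟨b, hb⟩ := hex {a, π a} (lt_of_le_of_lt Finset.card_le_two (by omega))
  obtain ⟨p, hp⟩ := hex {a, b} (lt_of_le_of_lt Finset.card_le_two (by omega))
  obtain ⟨q, hq⟩ := hex {a, b, p, π p} (lt_of_le_of_lt Finset.card_le_four (by omega))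
  simp only [Finset.mem_insert, Finset.mem_singleton, not_or] at hb hp hq
  obtain ⟨hba, hbπ⟩ := hb
  obtain ⟨hpa, hpb⟩ := hp
  obtain ⟨hqa, hqb, hqp, hqπ⟩ := hq
  have h3 : No3 (stabilizer (Perm α) x) := by
    intro a y z hay haz hyz hmem
    set s := swap a y * swap a z with hs
    have hsz : s z = y := by
      rw [hs, Perm.mul_apply, swap_apply_right, swap_apply_left]
    have hsa : s a = z := by
      rw [hs, Perm.mul_apply, swap_apply_left, swap_apply_of_ne_of_ne (Ne.symm haz) (Ne.symm hyz)]
    have hsy : s y = a := by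
      rw [hs, Perm.mul_apply, swap_apply_of_ne_of_ne (Ne.symm hay) hyz, swap_apply_right]
    have hso : ∀ c, c ≠ a → c ≠ y → c ≠ z → s c = c := by
      intro c h1 h2 h3
      rw [hs, Perm.mul_apply, swap_apply_of_ne_of_ne h1 h3, swap_apply_of_ne_of_ne h1 h2]
    have h1 := hπ3 s hmem a
    rw [hsa] at h1
    by_cases c1 : π a = y
    · rw [c1, hsy] at h1
      have h2 : π a = z := by rw [h1, hπ2]
      exact hyz (c1.symm.trans h2)
    · by_cases c2 : π a = z
      · rw [c2, hsz] at h1
        have h2 : π z = a := by rw [← c2, hπ2]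
        exact hay (h2.symm.trans h1.symm)
      · rw [hso _ (hπ1 a) c1 c2] at h1
        have h2 : a = z := by rw [← hπ2 a, h1, hπ2]
        exact haz h2
  set Y : Finset α := (Finset.univ \ {p, q}).erase a with hY
  have hYc : Y.card + 1 ≤ Fintype.card α - 2 := by
    have ha' : a ∈ (Finset.univ \ {p, q} : Finset α) := by
      simp [Ne.symm hpa, Ne.symm hqa]
    rw [hY, Finset.card_erase_of_mem ha']
    have h1 : (Finset.univ \ {p, q} : Finset α).card = Fintype.card α - 2 := by
      rw [Finset.card_sdiff_of_subset (Finset.subset_univ _), Finset.card_univ,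
        Finset.card_pair (Ne.symm hqp)]
    omega
  have hbY : b ∈ Y := by
    rw [hY]; simp [hba, Ne.symm hpb, Ne.symm hqb]
  obtain ⟨B, hB, hbB⟩ := star_base h3 (a := a) (Y := Y) (Finset.notMem_erase a _) (by
    intro h hh ha hY'
    have hfix : ∀ c, c ≠ p → c ≠ q → h c = c := by
      intro c h1 h2
      by_cases hca : c = a
      · subst hca; exact ha
      · apply hY'
        rw [hY]; simp [hca, h1, h2]
    have hπp : h (π p) = π p := by
      apply hfix _ (hπ1 p) (Ne.symm hqπ)
    have h1 := hπ3 h hh p
    rw [hπp] at h1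
    have h2 : h p = p := by rw [← hπ2 (h p), ← h1, hπ2]
    ext c
    rw [Perm.one_apply]
    by_cases hcp : c = p
    · rw [hcp, h2]
    by_cases hcq : c = q
    · rw [hcq]
      by_contra hne
      have h4 : h q ≠ p := fun e => hqp (h.injective (e.trans h2.symm))
      have h5 := hfix (h q) h4 hne
      exact hne (h.injective h5)
    · exact hfix c hcp hcq) {a, b, π a, π b} (by
    intro h hh
    have hH := star_stab hh
    have hs := star_key hh hbY
    set c := h a with hc
    set d := h b with hd
    have hcd : c ≠ d := fun e => hba (h.injective e).symm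
    have hπc : π c = h (π a) := by rw [hπ3 h hH a]
    have hπcd : π c ≠ d := by
      rw [hπc, hd]
      intro e
      exact hbπ (h.injective e).symm
    by_contra hcon
    simp only [Finset.mem_insert, Finset.mem_singleton, not_or] at hcon
    obtain ⟨k1, k2, k3, k4⟩ := hcon
    have m1 : π c ≠ a := fun e => k3 (by rw [← e, hπ2])
    have m2 : π c ≠ b := fun e => k4 (by rw [← e, hπ2])
    have h1 := hπ3 _ hs c
    have e1 : (swap a b * swap c d) (π c) = π c := by
      rw [Perm.mul_apply, swap_apply_of_ne_of_ne (hπ1 c) hπcd, swap_apply_of_ne_of_ne m1 m2]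
    have e2 : (swap a b * swap c d) c = swap a b d := by
      rw [Perm.mul_apply, swap_apply_left]
    rw [e1, e2] at h1
    have h2 : c = swap a b d := by rw [← hπ2 c, h1, hπ2]
    have h4 : d = c := by
      have : swap a b c = swap a b (swap a b d) := congrArg _ h2
      rw [swap_apply_self, swap_apply_of_ne_of_ne k1 k2] at this
      exact this.symm
    exact hcd h4.symm) 2 (lt_of_le_of_lt Finset.card_le_four (by norm_num))
  exact ⟨B, by omega, hbB⟩

/-- Case of an invariant equivalence relation with classes of size at least three. -/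
lemma block_case (x : X) (r : α → α → Prop) (hr1 : ∀ a, r a a) (hr2 : ∀ a b, r a b → r b a)
    (hr3 : ∀ a b c, r a b → r b c → r a c)
    (hr4 : ∀ h ∈ stabilizer (Perm α) x, ∀ a b, r a b → r (h a) (h b))
    (hbig : ∀ a, ∃ p q, p ≠ a ∧ q ≠ a ∧ p ≠ q ∧ r a p ∧ r a q)
    (hnt : ∃ a b, ¬ r a b) :
    ∃ B : Finset X, B.card ≤ Fintype.card α ∧ IsBase (Perm α) B := by
  classical
  obtain ⟨u, w, huw⟩ := hnt
  have hcard : 3 ≤ Fintype.card α := by
    obtain ⟨p, q, hp, hq, hpq, _, _⟩ := hbig u
    have h1 : ({u, p, q} : Finset α).card = 3 := Finset.card_eq_three.mpr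
      ⟨u, p, q, Ne.symm hp, Ne.symm hq, hpq, rfl⟩
    rw [← h1]; exact Finset.card_le_univ _
  -- the main point
  have main : ∀ a b c d, ¬ r a b → ¬ r c d → swap a b * swap c d ∈ stabilizer (Perm α) x →
      a = c ∨ a = d := by
    intro a b c d hab hcd hmem
    by_contra hcon
    push Not at hcon
    obtain ⟨hac, had⟩ := hcon
    have hsa : (swap a b * swap c d) a = b := by
      rw [Perm.mul_apply, swap_apply_of_ne_of_ne hac had, swap_apply_left]
    obtain ⟨p, q, hpa, hqa, hpq, hap, haq⟩ := hbig a
    have hstep : ∀ p, p ≠ a → r a p → p = c ∨ p = d := by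
      intro p hpa hap
      by_contra hc
      push Not at hc
      have hpb : p ≠ b := fun e => hab (e ▸ hap)
      have h1 := hr4 _ hmem a p hap
      rw [hsa] at h1
      have h2 : (swap a b * swap c d) p = p := by
        rw [Perm.mul_apply, swap_apply_of_ne_of_ne hc.1 hc.2, swap_apply_of_ne_of_ne hpa hpb]
      rw [h2] at h1
      exact hab (hr3 _ _ _ hap (hr2 _ _ h1))
    rcases hstep p hpa hap with h1 | h1 <;> rcases hstep q hqa haq with h2 | h2
    · exact hpq (h1.trans h2.symm)
    · subst h1; subst h2; exact hcd (hr3 _ _ _ (hr2 _ _ hap) haq)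
    · subst h1; subst h2; exact hcd (hr3 _ _ _ (hr2 _ _ haq) hap)
    · exact hpq (h1.trans h2.symm)
  apply double_star x (Finset.univ.filter (fun b => r u b)) u w (by simp [hr1]) (by simp [huw])
    hcard
  intro a ha b hb h hh hmem
  simp only [Finset.mem_filter, Finset.mem_univ, true_and] at ha hb
  have hab : ¬ r a b := fun e => hb (hr3 _ _ _ ha e)
  have hhab : ¬ r (h a) (h b) := by
    intro e
    apply hab
    have h1 := hr4 _ ((stabilizer (Perm α) x).inv_mem hh) _ _ e
    simpa using h1
  have e1 := main a b (h a) (h b) hab hhab hmem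
  have e2 := main b a (h b) (h a) (fun e => hab (hr2 _ _ e)) (fun e => hhab (hr2 _ _ e)) (by
    rw [swap_comm b a, swap_comm (h b) (h a)]; exact hmem)
  have hne : a ≠ b := fun e => hab (e ▸ hr1 a)
  rcases e1 with e1 | e1 <;> rcases e2 with e2 | e2
  · exact Or.inl ⟨e1.symm, e2.symm⟩
  · exact absurd (e1.trans e2.symm) hne
  · exact absurd (e1.trans e2.symm) hne
  · exact Or.inr ⟨e2.symm, e1.symm⟩

/-- Intransitive case. -/
lemma intrans_case (x : X) (hn : 3 ≤ Fintype.card α)
    (Δ : Finset α) (hΔ : ∀ h ∈ stabilizer (Perm α) x, ∀ a, a ∈ Δ ↔ h a ∈ Δ)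
    (u w : α) (hu : u ∈ Δ) (hw : w ∉ Δ) :
    ∃ B : Finset X, B.card ≤ Fintype.card α ∧ IsBase (Perm α) B := by
  apply double_star x Δ u w hu hw hn
  intro a ha b hb h hh hmem
  left
  have hc : h a ∈ Δ := (hΔ h hh a).mp ha
  have hd : h b ∉ Δ := fun e => hb ((hΔ h hh b).mpr e)
  set c := h a
  set d := h b
  have hab : a ≠ b := fun e => hb (e ▸ ha)
  have had : d ≠ a := fun e => hd (e ▸ ha)
  have hcb : c ≠ b := fun e => hb (e ▸ hc)
  have hca : c = a := by
    by_contra hne
    have h1 := (hΔ _ hmem c).mp hc
    rw [Perm.mul_apply, swap_apply_left] at h1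
    by_cases hdb : d = b
    · have h2 := (hΔ _ hmem a).mp ha
      rw [hdb, Perm.mul_apply, swap_apply_of_ne_of_ne (Ne.symm hne) hab, swap_apply_left] at h2
      exact hb h2
    · rw [swap_apply_of_ne_of_ne had hdb] at h1
      exact hd h1
  refine ⟨hca, ?_⟩
  by_contra hdb
  have h2 := (hΔ _ hmem a).mp ha
  rw [hca, Perm.mul_apply, swap_apply_left, swap_apply_of_ne_of_ne had hdb] at h2
  exact hd h2

end Cases

section Main

open Pointwise

variable {α : Type*} [DecidableEq α] [Fintype α]
variable {X : Type*} [MulAction (Perm α) X] [DecidableEq X]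

lemma imprim_case [FaithfulSMul (Perm α) X] (x : X) (hn : 5 ≤ Fintype.card α)
    (htrans : IsPretransitive (stabilizer (Perm α) x) α) (P : Set α)
    (hP : IsBlock (stabilizer (Perm α) x) P) (hPnt : ¬ IsTrivialBlock P) :
    ∃ B : Finset X, B.card ≤ Fintype.card α ∧ IsBase (Perm α) B := by
  classical
  unfold IsTrivialBlock at hPnt
  push Not at hPnt
  obtain ⟨hPs, hPu⟩ := hPnt
  have hPs' : P.Nontrivial := Set.not_subsingleton_iff.mp (by simpa using hPs)
  obtain ⟨b0, hb0⟩ := hPs'.nonempty
  set H := stabilizer (Perm α) x with hH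
  set r : α → α → Prop := fun a b => ∃ g : H, a ∈ g • P ∧ b ∈ g • P with hr
  have hcls : ∀ a, ∃ g : H, a ∈ g • P := by
    intro a
    obtain ⟨g, hg⟩ := htrans.exists_smul_eq b0 a
    exact ⟨g, ⟨b0, hb0, hg⟩⟩
  have heq : ∀ (g g' : H) (a : α), a ∈ g • P → a ∈ g' • P → g • P = g' • P := by
    intro g g' a h1 h2
    exact hP.smul_eq_smul_of_nonempty ⟨a, h1, h2⟩
  have hr1 : ∀ a, r a a := by
    intro a
    obtain ⟨g, hg⟩ := hcls a
    exact ⟨g, hg, hg⟩
  have hr2 : ∀ a b, r a b → r b a := by
    rintro a b ⟨g, h1, h2⟩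
    exact ⟨g, h2, h1⟩
  have hr3 : ∀ a b c, r a b → r b c → r a c := by
    rintro a b c ⟨g, h1, h2⟩ ⟨g', h3, h4⟩
    have := heq g g' b h2 h3
    exact ⟨g, h1, by rw [this]; exact h4⟩
  have hr4 : ∀ h ∈ H, ∀ a b, r a b → r (h a) (h b) := by
    rintro h hh a b ⟨g, h1, h2⟩
    refine ⟨⟨h, hh⟩ * g, ?_, ?_⟩
    · rw [mul_smul]
      exact ⟨a, h1, rfl⟩
    · rw [mul_smul]
      exact ⟨b, h2, rfl⟩
  have hcardP : ∀ g : H, (g • P).ncard = P.ncard := by
    intro g
    exact Set.ncard_smul_set g P
  have h2P : 2 ≤ P.ncard := by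
    have := (Set.one_lt_ncard (Set.toFinite P)).mpr hPs'
    omega
  rcases Nat.lt_or_ge 2 P.ncard with h3 | h3
  · -- classes of size at least 3
    apply block_case x r hr1 hr2 hr3 hr4
    · intro a
      obtain ⟨g, hg⟩ := hcls a
      have h5 : 1 < ((g • P) \ {a}).ncard := by
        have := Set.ncard_sdiff_singleton_add_one hg (Set.toFinite _)
        rw [hcardP] at this
        omega
      obtain ⟨p, hp, q, hq, hpq⟩ := (Set.one_lt_ncard (Set.toFinite _)).mp h5
      exact ⟨p, q, hp.2, hq.2, hpq, ⟨g, hg, hp.1⟩, ⟨g, hg, hq.1⟩⟩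
    · obtain ⟨w, hw⟩ := (Set.ne_univ_iff_exists_notMem P).mp hPu
      refine ⟨b0, w, ?_⟩
      rintro ⟨g, h1, h2⟩
      have h6 : g • P = (1 : H) • P := heq g 1 b0 h1 (by rw [one_smul]; exact hb0)
      rw [h6, one_smul] at h2
      exact hw h2
  · -- classes of size two
    have h2 : P.ncard = 2 := by omega
    have hex : ∀ a, ∃ b, b ≠ a ∧ r a b := by
      intro a
      obtain ⟨g, hg⟩ := hcls a
      have h5 : 0 < ((g • P) \ {a}).ncard := by
        have := Set.ncard_sdiff_singleton_add_one hg (Set.toFinite _)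
        rw [hcardP] at this
        omega
      obtain ⟨p, hp⟩ := (Set.ncard_pos (Set.toFinite _)).mp h5
      exact ⟨p, hp.2, ⟨g, hg, hp.1⟩⟩
    have huni : ∀ a b c, b ≠ a → c ≠ a → r a b → r a c → b = c := by
      rintro a b c hb hc ⟨g, h1, h2'⟩ ⟨g', h3, h4⟩
      by_contra hbc
      have h5 := heq g g' a h1 h3
      rw [← h5] at h4
      have h6 : ({a, b, c} : Set α) ⊆ g • P := by
        rintro y (rfl | rfl | rfl)
        · exact h1
        · exact h2'
        · exact h4
      have h7 := Set.ncard_le_ncard h6 (Set.toFinite _)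
      have h8 : ({a, b, c} : Set α).ncard = 3 :=
        Set.ncard_eq_three.mpr ⟨a, b, c, Ne.symm hb, Ne.symm hc, hbc, rfl⟩
      rw [hcardP, h8] at h7
      omega
    choose π hπ1 hπ2 using hex
    apply pair_case x hn π hπ1
    · intro a
      exact huni (π a) _ _ (hπ1 _) (Ne.symm (hπ1 a)) (hπ2 _) (hr2 _ _ (hπ2 a))
    · intro h hh a
      apply huni (h a) _ _ _ (hπ1 _) _ (hπ2 _)
      · intro e
        exact hπ1 a (h.injective e)
      · exact hr4 h hh _ _ (hπ2 a)

/-- Every faithful action of the symmetric group on `α` has a base of size at most `|α|`. -/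
theorem exists_base (α : Type*) [DecidableEq α] [Fintype α] (X : Type*) [MulAction (Perm α) X]
    [FaithfulSMul (Perm α) X] :
    ∃ B : Finset X, B.card ≤ Fintype.card α ∧ IsBase (Perm α) B := by
  classical
  rcases Nat.lt_or_ge (Fintype.card α) 5 with hn | hn
  · -- small degrees
    have hc : Nat.card (fixB (Perm α) (∅ : Finset X)) < 2 ^ (Fintype.card α + 1) := by
      have h1 : Nat.card (fixB (Perm α) (∅ : Finset X)) ≤ Nat.card (Perm α) :=
        Subgroup.card_le_card_group _
      rw [Nat.card_perm, Nat.card_eq_fintype_card (α := α)] at h1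
      refine lt_of_le_of_lt h1 ?_
      interval_cases (Fintype.card α) <;> decide
    obtain ⟨B, hB, hb⟩ := extend_base (G := Perm α) (X := X) (Fintype.card α) ∅ hc
    exact ⟨B, by simpa using hB, hb⟩
  · have hx : ∃ x : X, ¬ alternatingGroup α ≤ stabilizer (Perm α) x := by
      by_contra hcon
      push Not at hcon
      obtain ⟨a, b, c, hab, hac, hbc⟩ := Fintype.two_lt_card_iff.mp (show 2 < Fintype.card α by omega)
      have h3 := isThreeCycle_swap_mul_swap_same hab hac hbc
      have hmem := h3.mem_alternatingGroup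
      have h1 : swap a b * swap a c = 1 := by
        apply FaithfulSMul.eq_of_smul_eq_smul (α := X)
        intro x
        rw [one_smul]
        exact mem_stabilizer_iff.mp (hcon x hmem)
      have h4 := h3.orderOf
      rw [h1, orderOf_one] at h4
      omega
    obtain ⟨x, hx⟩ := hx
    by_cases hprim : IsPreprimitive (stabilizer (Perm α) x) α
    · exact prim_case x hn hprim hx
    by_cases htrans : IsPretransitive (stabilizer (Perm α) x) α
    · have hP : ∃ P : Set α, IsBlock (stabilizer (Perm α) x) P ∧ ¬ IsTrivialBlock P := by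
        by_contra hcon
        push Not at hcon
        exact hprim { exists_smul_eq := htrans.exists_smul_eq,
                      isTrivialBlock_of_isBlock := fun {B} hB => hcon B hB }
      obtain ⟨P, hP, hPnt⟩ := hP
      exact imprim_case x hn htrans P hP hPnt
    · have hex : ∃ u w : α, ¬ ∃ g : stabilizer (Perm α) x, g • u = w := by
        by_contra hcon
        push Not at hcon
        exact htrans ⟨hcon⟩
      obtain ⟨u, w, huw⟩ := hex
      apply intrans_case x (by omega)
        (Finset.univ.filter (fun c => ∃ g : stabilizer (Perm α) x, g • u = c)) _ u w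
      · simp only [Finset.mem_filter, Finset.mem_univ, true_and]
        exact ⟨1, one_smul _ _⟩
      · simpa using huw
      · intro h hh a
        simp only [Finset.mem_filter, Finset.mem_univ, true_and]
        constructor
        · rintro ⟨g, rfl⟩
          exact ⟨⟨h, hh⟩ * g, by rw [mul_smul]; rfl⟩
        · rintro ⟨g, hg⟩
          refine ⟨(⟨h, hh⟩ : stabilizer (Perm α) x)⁻¹ * g, ?_⟩
          rw [mul_smul, hg, inv_smul_eq_iff]
          rfl

end Main

end Pool.Agent.U664.BaseSn
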